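import Mathlib

/-!
Definitions for Kingman's semigroup of standard p-functions.
-/

open MeasureTheory Filter Topology
open scoped NNReal

namespace Pool.Agent.Lib.MP_0f714a_pr

universe u

/-- `p : [0,∞) → [0,1]` with `p 0 = 1` is a p-function if there are a probability space and events
`E t` in it such that for all `t₁ ≤ t₂ ≤ ... ≤ tₙ` (with `n ≥ 1`)
`P (E t₁ ∩ ... ∩ E tₙ) = p t₁ * P (E (t₂ - t₁) ∩ ... ∩ E (tₙ - t₁))`. -/
def IsPFunction (p : ℝ≥0 → ℝ) : Prop :=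
  p 0 = 1 ∧ (∀ t, 0 ≤ p t ∧ p t ≤ 1) ∧
    ∃ (Ω : Type u) (_ : MeasurableSpace Ω) (P : Measure Ω) (_ : IsProbabilityMeasure P)
      (E : ℝ≥0 → Set Ω), (∀ t, MeasurableSet (E t)) ∧
      ∀ (n : ℕ) (t : Fin (n + 1) → ℝ≥0), Monotone t →
        P.real (⋂ i, E (t i)) = p (t 0) * P.real (⋂ i : Fin n, E (t i.succ - t 0))

/-- The standard p-functions: those with `p t → 1` as `t → 0`. -/
def IsStandard (p : ℝ≥0 → ℝ) : Prop :=
  IsPFunction.{u} p ∧ Tendsto p (𝓝 0) (𝓝 1)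

/-- `q` is a factor of `p` in the semigroup of standard p-functions. -/
def IsFactor (q p : ℝ≥0 → ℝ) : Prop :=
  IsStandard.{u} q ∧ ∃ r, IsStandard.{u} r ∧ ∀ t, p t = q t * r t

/-- `p` has an `n`-th root in the semigroup of standard p-functions for every `n ≥ 1`. -/
def IsInfDiv (p : ℝ≥0 → ℝ) : Prop :=
  ∀ n : ℕ, 1 ≤ n → ∃ q, IsStandard.{u} q ∧ ∀ t, q t ^ n = p t

/-- The truncated exponential `t ↦ exp (-lam * min τ t)`. -/
noncomputable def truncExp (lam τ : ℝ≥0) (t : ℝ≥0) : ℝ :=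
  Real.exp (-((lam : ℝ) * min (τ : ℝ) (t : ℝ)))

end Pool.Agent.Lib.MP_0f714a_pr
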