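import Pool.Agent.Lib.MP_0f714a_pr.Renewal

/-!
Passage from renewal sequences to p-functions by weak compactness.
-/

open MeasureTheory Filter Topology Finset
open scoped NNReal

namespace Pool.Agent.Lib.MP_0f714a_pr

universe u

/-- the continuous-time sample space -/
def Om : Type := ℝ≥0 → Bool

instance : TopologicalSpace Om := inferInstanceAs (TopologicalSpace (ℝ≥0 → Bool))
instance : CompactSpace Om := inferInstanceAs (CompactSpace (ℝ≥0 → Bool))
instance : T2Space Om := inferInstanceAs (T2Space (ℝ≥0 → Bool))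
instance : MeasurableSpace Om := borel Om
instance : BorelSpace Om := ⟨rfl⟩

/-- the event that the phenomenon occurs at all times of the list -/
def occ (l : List ℝ≥0) : Set Om := {ω | ∀ t ∈ l, (show ℝ≥0 → Bool from ω) t = true}

lemma occ_clopen (l : List ℝ≥0) : IsClopen (occ l) := by
  induction l with
  | nil =>
    have : occ [] = Set.univ := by ext; simp [occ]
    rw [this]; exact isClopen_univ
  | cons t l ih =>
    have : occ (t :: l) = (fun ω : Om => (show ℝ≥0 → Bool from ω) t) ⁻¹' {true} ∩ occ l := by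
      ext; simp [occ]
    rw [this]
    refine IsClopen.inter ?_ ih
    exact (isClopen_discrete _).preimage (continuous_apply (A := fun _ : ℝ≥0 => Bool) t)

lemma exists_limit_measure (μs : ℕ → ProbabilityMeasure Om) :
    ∃ μ : ProbabilityMeasure Om, ∀ (l : List ℝ≥0) (c : ℝ),
      Tendsto (fun N => (μs N : Measure Om).real (occ l)) atTop (𝓝 c) →
        (μ : Measure Om).real (occ l) = c := by
  obtain ⟨μ, -, hμ⟩ := isCompact_univ.ultrafilter_le_nhds
    (Ultrafilter.map μs (hyperfilter ℕ)) (by simp)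
  refine ⟨μ, fun l c hc => ?_⟩
  have h1 : Tendsto μs (hyperfilter ℕ) (𝓝 μ) := hμ
  have h2 := ProbabilityMeasure.tendsto_iff_forall_integral_tendsto.1 h1
    (BoundedContinuousFunction.indicator (occ l) (occ_clopen l))
  have h3 : ∀ ν : Measure Om,
      ∫ ω, (BoundedContinuousFunction.indicator (occ l) (occ_clopen l)) ω ∂ν
        = ν.real (occ l) := by
    intro ν
    have : ∀ ω, (BoundedContinuousFunction.indicator (occ l) (occ_clopen l)) ω =
        (occ l).indicator 1 ω := fun ω => rfl
    simp only [this]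
    exact integral_indicator_one (occ_clopen l).isOpen.measurableSet
  simp only [h3] at h2
  have h4 : (hyperfilter ℕ : Filter ℕ) ≤ atTop := by
    rw [← Nat.cofinite_eq_atTop]; exact hyperfilter_le_cofinite
  exact tendsto_nhds_unique h2 (hc.mono_left h4)

lemma chainProd_shift (p : ℝ≥0 → ℝ) (s : ℝ≥0) (l : List ℝ≥0) :
    ∀ a, s ≤ a → (∀ t ∈ l, s ≤ t) → chainProd p (a - s) (l.map (· - s)) = chainProd p a l := by
  induction l with
  | nil => intros; rfl
  | cons t l ih =>
    intro a ha hl
    simp only [List.map_cons, chainProd]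
    rw [ih t (hl t (by simp)) (fun x hx => hl x (by simp [hx])), tsub_tsub_tsub_cancel_right ha]

/-- A measure on the canonical space with the product formula gives a p-function. -/
lemma isPFunction_of_measure (p : ℝ≥0 → ℝ) (h0 : p 0 = 1) (μ : ProbabilityMeasure Om)
    (h : ∀ l : List ℝ≥0, l.Pairwise (· ≤ ·) → (μ : Measure Om).real (occ l) = chainProd p 0 l) :
    IsPFunction.{u} p := by
  refine ⟨h0, fun t => ?_, ?_⟩
  · have := h [t] (by simp)
    simp only [chainProd, tsub_zero, mul_one] at this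
    rw [← this]
    exact ⟨measureReal_nonneg, measureReal_le_one⟩
  · have hup : Measurable (ULift.up : Om → ULift.{u} Om) := measurable_up
    have hmeas : ∀ l, MeasurableSet ((ULift.down : ULift.{u} Om → Om) ⁻¹' occ l) :=
      fun l => measurable_down (occ_clopen l).isOpen.measurableSet
    have hP : ∀ l, ((μ : Measure Om).map (ULift.up : Om → ULift.{u} Om)).real
        (ULift.down ⁻¹' occ l) = (μ : Measure Om).real (occ l) := by
      intro l
      rw [Measure.real, Measure.map_apply hup (hmeas l)]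
      rfl
    refine ⟨ULift.{u} Om, inferInstance, (μ : Measure Om).map ULift.up,
      Measure.isProbabilityMeasure_map hup.aemeasurable, fun t => ULift.down ⁻¹' occ [t],
      fun t => hmeas [t], fun n t ht => ?_⟩
    have e : ∀ (k : ℕ) (s : Fin k → ℝ≥0), (⋂ i, (ULift.down : ULift.{u} Om → Om) ⁻¹' occ [s i]) =
        ULift.down ⁻¹' occ (List.ofFn s) := by
      intro k s
      ext ω
      simp [occ, List.mem_ofFn]
    rw [e, e n (fun i => t i.succ - t 0), hP, hP, h, h]
    · rw [List.ofFn_succ, chainProd, tsub_zero]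
      congr 1
      rw [← chainProd_shift p (t 0) _ (t 0) le_rfl]
      · simp only [tsub_self, List.map_ofFn]
        rfl
      · intro x hx
        obtain ⟨i, rfl⟩ := List.mem_ofFn.1 hx
        exact ht (Fin.zero_le _)
    · rw [List.pairwise_ofFn]
      intro i j hij
      exact tsub_le_tsub_right (ht (Fin.succ_le_succ_iff.2 hij.le)) _
    · rw [List.pairwise_ofFn]
      intro i j hij
      exact ht hij.le

/-- grid position of time `t` on the grid of mesh `1/N` -/
noncomputable def grid (N : ℕ) (t : ℝ≥0) : ℕ := ⌊(N : ℝ) * t⌋₊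

lemma grid_mono (N : ℕ) : Monotone (grid N) := by
  intro s t h
  exact Nat.floor_le_floor (mul_le_mul_of_nonneg_left (by exact_mod_cast h) (Nat.cast_nonneg _))

lemma grid_zero (N : ℕ) : grid N 0 = 0 := by simp [grid]

lemma grid_tendsto (t : ℝ≥0) : Tendsto (fun N : ℕ => (grid N t : ℝ) / N) atTop (𝓝 t) := by
  have h := (tendsto_nat_floor_mul_div_atTop (R := ℝ) (a := (t : ℝ)) t.2).comp
    tendsto_natCast_atTop_atTop
  refine h.congr fun N => ?_
  simp [grid, mul_comm]

lemma grid_le (t : ℝ≥0) : ∀ᶠ N : ℕ in atTop, grid N t ≤ N * N := by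
  filter_upwards [eventually_ge_atTop ⌈(t : ℝ)⌉₊] with N hN
  have h1 : (t : ℝ) ≤ N := (Nat.le_ceil _).trans (by exact_mod_cast hN)
  refine Nat.floor_le_of_le ?_
  push_cast
  exact mul_le_mul_of_nonneg_left h1 (Nat.cast_nonneg _)

/-- A pointwise limit of rescaled renewal sequences is a p-function. -/
theorem isPFunction_of_approx (p : ℝ≥0 → ℝ) (h0 : p 0 = 1) (v : ℕ → ℕ → ℝ)
    (hv : ∀ᶠ N in atTop, ∃ f, IsRenewal (v N) f)
    (hlim : ∀ (t : ℝ≥0) (j : ℕ → ℕ), Tendsto (fun N : ℕ => (j N : ℝ) / N) atTop (𝓝 t) →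
      Tendsto (fun N => v N (j N)) atTop (𝓝 (p t))) :
    IsPFunction.{u} p := by
  classical
  have hex : ∀ N : ℕ, ∃ ν : ProbabilityMeasure Om, (∃ f, IsRenewal (v N) f) →
      ∀ l : List ℝ≥0, l.Pairwise (· ≤ ·) → (∀ t ∈ l, grid N t ≤ N * N) →
        (ν : Measure Om).real (occ l) = chainProd (v N) 0 (l.map (grid N)) := by
    intro N
    by_cases hN : ∃ f, IsRenewal (v N) f
    · obtain ⟨f, hf⟩ := hN
      obtain ⟨ν, h1, -, h3⟩ := exists_renewal_measure hf (N * N) 0
      let g : Disc → Om := fun S => (fun t => decide ((show Set ℕ from S) (grid N t)) : ℝ≥0 → Bool)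
      have hg : Measurable g := fun _ _ => trivial
      refine ⟨⟨ν.map g, Measure.isProbabilityMeasure_map hg.aemeasurable⟩, fun _ l hl hl' => ?_⟩
      rw [← h3]
      · simp only [ProbabilityMeasure.coe_mk]
        rw [Measure.real, Measure.map_apply hg (occ_clopen l).isOpen.measurableSet]
        congr 2
        ext S
        simp [occ, allIn, g]
      · rw [List.pairwise_map]
        exact hl.imp fun h => grid_mono N h
      · intro x hx
        obtain ⟨t, ht, rfl⟩ := List.mem_map.1 hx
        exact ⟨Nat.zero_le _, by simpa using hl' t ht⟩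
    · exact ⟨⟨Measure.dirac (fun _ => true : ℝ≥0 → Bool), inferInstance⟩, fun h => absurd h hN⟩
  choose μs hμs using hex
  obtain ⟨μ, hμ⟩ := exists_limit_measure μs
  refine isPFunction_of_measure p h0 μ fun l hl => hμ l _ ?_
  have key : ∀ (l : List ℝ≥0) (a : ℝ≥0), (a :: l).Pairwise (· ≤ ·) →
      Tendsto (fun N => chainProd (v N) (grid N a) (l.map (grid N))) atTop
        (𝓝 (chainProd p a l)) := by
    intro l
    induction l with
    | nil => intro a _; simp [chainProd]
    | cons t l ih =>
      intro a ha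
      have ha' := List.pairwise_cons.1 ha
      have hat : a ≤ t := ha'.1 t (by simp)
      simp only [List.map_cons, chainProd]
      refine Tendsto.mul ?_ (ih t ha'.2)
      refine hlim (t - a) (fun N => grid N t - grid N a) ?_
      have := (grid_tendsto t).sub (grid_tendsto a)
      rw [NNReal.coe_sub hat]
      refine this.congr fun N => ?_
      rw [Nat.cast_sub (grid_mono N hat), sub_div]
  have h1 := key l 0 (List.pairwise_cons.2 ⟨fun _ _ => zero_le, hl⟩)
  refine h1.congr' ?_
  have h2 : ∀ᶠ N : ℕ in atTop, ∀ t ∈ l, grid N t ≤ N * N := by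
    have := (Filter.eventually_all_finite (l.finite_toSet)).2 (fun t _ => grid_le t)
    exact this
  filter_upwards [hv, h2] with N hN hN2
  rw [hμs N hN l hl hN2, grid_zero]

/-- time change -/
lemma IsPFunction.scale {p : ℝ≥0 → ℝ} (h : IsPFunction.{u} p) (c : ℝ≥0) :
    IsPFunction.{u} (fun t => p (c * t)) := by
  obtain ⟨h0, h1, Ω, m, P, hP, E, hE, hreg⟩ := h
  refine ⟨by simpa using h0, fun t => h1 _, Ω, m, P, hP, fun t => E (c * t), fun t => hE _,
    fun n t ht => ?_⟩
  have := hreg n (fun i => c * t i) (fun i j hij => mul_le_mul_right (ht hij) c)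
  simpa only [mul_tsub] using this

/-- the two-point Kingman inequality -/
lemma IsPFunction.two_point {p : ℝ≥0 → ℝ} (h : IsPFunction.{u} p) (t : ℝ≥0) :
    p t + p (t + t) ≤ 1 + p t * p t := by
  obtain ⟨h0, h1, Ω, m, P, hP, E, hE, hreg⟩ := h
  have e1 : ∀ s, P.real (E s) = p s := by
    intro s
    have := hreg 0 (fun _ => s) monotone_const
    simpa [Set.iInter_const] using this
  have e2 : P.real (E t ∩ E (t + t)) = p t * p t := by
    have hm : Monotone (![t, t + t] : Fin 2 → ℝ≥0) := by
      intro i j hij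
      fin_cases i <;> fin_cases j <;> simp_all
    have := hreg 1 ![t, t + t] hm
    have e3 : (⋂ i : Fin 2, E (![t, t + t] i)) = E t ∩ E (t + t) := by
      ext ω; simp [Fin.forall_fin_two]
    rw [e3] at this
    rw [this]
    simp [Set.iInter_const, e1]
  have e4 := measureReal_union_add_inter (μ := P) (s := E t) (hE (t + t))
  have e5 : P.real (E t ∪ E (t + t)) ≤ 1 := measureReal_le_one
  rw [e1, e1, e2] at e4
  linarith

/-- A p-function that increases from `t` to `2t` is not infinitely divisible. -/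
lemma not_isInfDiv {q : ℝ≥0 → ℝ} (t : ℝ≥0) (h0 : 0 < q t) (h : q t < q (t + t)) :
    ¬ IsInfDiv.{u} q := by
  intro hq
  set L := Real.log (q t) with hL
  obtain ⟨n, hn⟩ := exists_nat_gt (L ^ 2 / (q (t + t) - q t))
  have hn0 : (0 : ℝ) < n := lt_of_le_of_lt (div_nonneg (sq_nonneg _) (by linarith)) hn
  obtain ⟨s, hs, hsn⟩ := hq n (by exact_mod_cast hn0)
  have h2 := hs.1.two_point t
  set α := s t
  set β := s (t + t)
  have hα := hs.1.2.1 t
  have hβ := hs.1.2.1 (t + t)
  have hαn : α ^ n = q t := hsn t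
  have hβn : β ^ n = q (t + t) := hsn (t + t)
  have hα0 : 0 < α := by
    rcases hα.1.eq_or_lt with h1 | h1
    · exfalso
      have : α = 0 := h1.symm
      rw [this, zero_pow (by exact_mod_cast hn0.ne')] at hαn
      linarith
    · exact h1
  have hαβ : α ≤ β := by
    by_contra hc
    have := pow_le_pow_left₀ hβ.1 (not_le.1 hc).le n
    linarith
  have h3 : β ^ n - α ^ n ≤ (β - α) * n := by
    have := abs_pow_sub_pow_le β α n
    have h4 : max |β| |α| ^ (n - 1) ≤ 1 := by
      refine pow_le_one₀ (le_max_of_le_left (abs_nonneg _)) (max_le ?_ ?_)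
      · rw [abs_of_nonneg hβ.1]; exact hβ.2
      · rw [abs_of_nonneg hα.1]; exact hα.2
    rw [abs_of_nonneg (sub_nonneg.2 hαβ)] at this
    have h5 : 0 ≤ (β - α) * n := mul_nonneg (sub_nonneg.2 hαβ) hn0.le
    calc β ^ n - α ^ n ≤ |β ^ n - α ^ n| := le_abs_self _
      _ ≤ (β - α) * n * max |β| |α| ^ (n - 1) := this
      _ ≤ (β - α) * n := mul_le_of_le_one_right h5 h4
  have h6 : L = n * Real.log α := by rw [hL, ← hαn, Real.log_pow]
  have h7 : Real.log α ≤ α - 1 := Real.log_le_sub_one_of_pos hα0
  have h8 : (1 - α) ^ 2 ≤ (Real.log α) ^ 2 := by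
    have : 0 ≤ 1 - α := by linarith [hα.2]
    nlinarith
  have h9 : β - α ≤ (1 - α) ^ 2 := by nlinarith
  have h10 : (q (t + t) - q t) * n ≤ L ^ 2 := by
    rw [h6, ← hαn, ← hβn]
    have : (β ^ n - α ^ n) * n ≤ (β - α) * n * n := mul_le_mul_of_nonneg_right h3 hn0.le
    have h11 : (β - α) * n * n ≤ (Real.log α) ^ 2 * n * n := by
      gcongr; linarith
    nlinarith
  rw [div_lt_iff₀ (by linarith)] at hn
  nlinarith

end Pool.Agent.Lib.MP_0f714a_pr
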