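import Pool.Agent.Lib.MP_0f714a_pr.Renewal

/-!
Two families of renewal sequences: bounded Kaluza sequences, and the sequences
`x ^ min n N * (1 + c - c * y ^ (n - N))`.
-/

open Finset hiding mk
open PowerSeries

namespace Pool.Agent.Lib.MP_0f714a_pr

/-- all coefficients are nonnegative -/
def NN (φ : ℝ⟦X⟧) : Prop := ∀ n, 0 ≤ coeff n φ

lemma NN.add {φ ψ : ℝ⟦X⟧} (h1 : NN φ) (h2 : NN ψ) : NN (φ + ψ) := fun n => by
  rw [map_add]; exact add_nonneg (h1 n) (h2 n)

lemma NN.mul {φ ψ : ℝ⟦X⟧} (h1 : NN φ) (h2 : NN ψ) : NN (φ * ψ) := fun n => by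
  rw [coeff_mul]; exact Finset.sum_nonneg fun p _ => mul_nonneg (h1 _) (h2 _)

lemma NN_C {a : ℝ} (h : 0 ≤ a) : NN (C a) := fun n => by
  rw [coeff_C]; split_ifs <;> simp [h]

lemma NN_one : NN 1 := by simpa using NN_C zero_le_one

lemma NN_X_pow (k : ℕ) : NN (X ^ k) := fun n => by
  rw [coeff_X_pow]; split_ifs <;> simp

lemma NN_X : NN X := by simpa using NN_X_pow 1

lemma NN_of_fix {m S G : ℝ⟦X⟧} (hS : NN S) (hG : NN G) (h : m = S + X * (G * m)) : NN m := by
  intro n
  induction n using Nat.strong_induction_on with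
  | _ n ih =>
  rw [h, map_add]
  refine add_nonneg (hS n) ?_
  rcases n with _ | n
  · simp
  · rw [coeff_succ_X_mul, coeff_mul]
    refine Finset.sum_nonneg fun p hp => mul_nonneg (hG _) (ih _ ?_)
    have := Finset.HasAntidiagonal.mem_antidiagonal.1 hp
    omega

lemma recur_of_series {u : ℕ → ℝ} {F : ℝ⟦X⟧} (h1 : mk u * (1 - X * F) = 1) (n : ℕ) :
    u (n + 1) = ∑ j ∈ range (n + 1), coeff j F * u (n - j) := by
  have h : mk u = 1 + X * (F * mk u) := by linear_combination h1
  have h2 := congrArg (coeff (n + 1)) h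
  rw [map_add, coeff_succ_X_mul, coeff_mul, coeff_mk, coeff_one,
    Finset.Nat.sum_antidiagonal_eq_sum_range_succ (fun i j => coeff i F * coeff j (mk u))] at h2
  simpa using h2

lemma isRenewal_of_series {u : ℕ → ℝ} {F R : ℝ⟦X⟧} (h1 : mk u * (1 - X * F) = 1) (hF : NN F)
    (hR : NN R) (h2 : R * (1 - X) = 1 - X * F) : IsRenewal u (fun j => coeff j F) where
  u0 := by
    have := congrArg (coeff 0) h1
    simpa using this
  f_nonneg := hF
  recur := recur_of_series h1
  sum_le := by
    have h : R = 1 - X * F + X * R := by linear_combination h2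
    have key : ∀ n, coeff n R = 1 - ∑ j ∈ range n, coeff j F := by
      intro n
      induction n with
      | zero => rw [h]; simp
      | succ n ih =>
        rw [h, map_add, map_sub, coeff_succ_X_mul, coeff_succ_X_mul, ih, Finset.sum_range_succ,
          coeff_one]
        simp only [Nat.succ_ne_zero, if_false]
        ring
    intro n
    have := hR n
    rw [key] at this
    linarith

/-- geometric series -/
noncomputable def geo (a : ℝ) : ℝ⟦X⟧ := mk fun n => a ^ n

lemma geo_mul (a : ℝ) : geo a * (1 - C a * X) = 1 := by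
  ext n
  rw [mul_sub, mul_one, map_sub, mul_left_comm, coeff_C_mul]
  rcases n with _ | n
  · simp [geo]
  · rw [coeff_succ_mul_X]
    simp [geo, pow_succ, mul_comm, coeff_one]

lemma NN_geo {a : ℝ} (h : 0 ≤ a) : NN (geo a) := fun n => by
  simp only [geo, coeff_mk]; positivity

/-- Kaluza's lemma -/
theorem kaluza {u : ℕ → ℝ} (h0 : u 0 = 1) (hpos : ∀ n, 0 < u n)
    (hconv : ∀ n, u (n + 1) ^ 2 ≤ u n * u (n + 2)) (hanti : ∀ n, u (n + 1) ≤ u n) :
    ∃ f, IsRenewal u f := by
  have hc : constantCoeff (mk u) ≠ 0 := by simp [h0]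
  have hUV : mk u * (mk u)⁻¹ = 1 := PowerSeries.mul_inv_cancel _ hc
  set V := (mk u)⁻¹ with hV
  let F : ℝ⟦X⟧ := mk fun n => -coeff (n + 1) V
  have hVF : V = 1 - X * F := by
    ext n
    rcases n with _ | n
    · simp [hV, h0]
    · rw [map_sub, coeff_succ_X_mul, coeff_one]; simp [F]
  have h1 : mk u * (1 - X * F) = 1 := by rw [← hVF, hUV]
  have hg := geo_mul 1
  rw [map_one, one_mul] at hg
  let D : ℝ⟦X⟧ := mk fun n => u n - u (n + 1)
  have hD : (1 - X) * mk u = 1 - X * D := by
    ext n
    rcases n with _ | n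
    · simp [h0]
    · rw [sub_mul, one_mul, map_sub, map_sub, coeff_succ_X_mul, coeff_succ_X_mul, coeff_one]
      simp [D]
  refine ⟨_, isRenewal_of_series (R := V * geo 1) h1 ?_ ?_ ?_⟩
  · have hrec := recur_of_series h1
    have hmono : Monotone fun n => u (n + 1) / u n := by
      refine monotone_nat_of_le_succ fun n => ?_
      rw [div_le_div_iff₀ (hpos _) (hpos _)]
      nlinarith [hconv n]
    intro n
    induction n using Nat.strong_induction_on with
    | _ n ih =>
    rcases n with _ | n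
    · have := hrec 0
      simp only [zero_add, range_one, sum_singleton, tsub_self, h0, mul_one] at this
      rw [← this]; exact (hpos 1).le
    · have e1 := hrec n
      have e2 := hrec (n + 1)
      rw [Finset.sum_range_succ, tsub_self, h0, mul_one] at e2
      have e3 : ∑ j ∈ range (n + 1), coeff j F * u (n + 1 - j) ≤
          u (n + 1) / u n * ∑ j ∈ range (n + 1), coeff j F * u (n - j) := by
        rw [Finset.mul_sum]
        refine Finset.sum_le_sum fun j hj => ?_
        have hj' := Finset.mem_range.1 hj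
        have := hmono (Nat.sub_le n j)
        simp only at this
        rw [div_le_iff₀ (hpos _)] at this
        rw [show n + 1 - j = n - j + 1 by omega, mul_left_comm]
        exact mul_le_mul_of_nonneg_left this (ih j hj')
      rw [← e1] at e3
      have e4 : u (n + 1) / u n * u (n + 1) ≤ u (n + 2) := by
        rw [div_mul_eq_mul_div, div_le_iff₀ (hpos _)]
        nlinarith [hconv n]
      linarith
  · refine NN_of_fix (G := D) NN_one (fun n => ?_) ?_
    · simp only [D, coeff_mk]; linarith [hanti n]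
    · linear_combination (-(V * geo 1)) * hD + (V * mk u) * hg + hUV
  · rw [← hVF]; linear_combination V * hg

/-- The perturbed sequences are renewal sequences. -/
theorem pert_renewal (N : ℕ) {x w c : ℝ} (hw : 0 ≤ w) (hwx : w < x) (hx : x ≤ 1)
    (hc : c * (2 - x - w) * x ^ N * (x - w) = (1 - x) * ((1 - x) * x ^ N - (1 - w) * w ^ N)) :
    ∃ f, IsRenewal (fun n => x ^ min n N * (1 + c - c * (x + w - 1) ^ (n - N))) f := by
  set y := x + w - 1 with hy
  set P := x ^ N with hP
  set Q := w ^ N with hQ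
  have hxw : x - w ≠ 0 := by linarith
  set γ := (1 - x) * (1 - w) / (x - w) with hγ
  have hγ0 : 0 ≤ γ := div_nonneg (mul_nonneg (by linarith) (by linarith)) (by linarith)
  have hγ1 : γ * (x - w) = (1 - x) * (1 - w) := by rw [hγ]; field_simp
  set α := γ * (P - Q) with hα
  set κ := (1 - x) * (1 - w) * Q with hκ
  have hα0 : 0 ≤ α := mul_nonneg hγ0 (sub_nonneg.2 (pow_le_pow_left₀ hw hwx.le N))
  have hκ0 : 0 ≤ κ := mul_nonneg (mul_nonneg (by linarith) (by linarith)) (pow_nonneg hw N)
  have s1 : α = (1 - x) * P + P * c * (1 - y) := by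
    apply mul_right_cancel₀ hxw
    rw [hα, hy]
    linear_combination (P - Q) * hγ1 - hc
  have s2 : α * w - (1 - x) * P * y - P * c * (1 - y) * x = κ := by
    rw [s1, hκ, hy]
    linear_combination -hc
  let Z : ℝ⟦X⟧ := X ^ N
  let G : ℝ⟦X⟧ := C γ * ((geo x - Z * (C P * geo x)) - (geo w - Z * (C Q * geo w)))
  have hG : NN G := by
    intro n
    simp only [G, Z, coeff_C_mul, map_sub, coeff_X_pow_mul', geo, coeff_mk]
    split_ifs with h
    · rw [hP, hQ, ← pow_add, ← pow_add, Nat.add_sub_cancel' h]; simp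
    · exact mul_nonneg hγ0 (by simpa using pow_le_pow_left₀ hw hwx.le n)
  have hU : (mk fun n => x ^ min n N * (1 + c - c * y ^ (n - N))) =
      geo x - Z * (C P * geo x) + Z * (C P * (C (1 + c) * geo 1 - C c * geo y)) := by
    ext n
    simp only [Z, coeff_C_mul, map_sub, map_add (coeff n), coeff_X_pow_mul', geo, coeff_mk]
    split_ifs with h
    · rw [hP, ← pow_add, Nat.add_sub_cancel' h, min_eq_right h]; simp
    · have h' : n ≤ N := by omega
      rw [min_eq_left h', Nat.sub_eq_zero_of_le h']; simp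
  have hcc : constantCoeff (1 - X * G) ≠ 0 := by simp
  have hR1 : (1 - X * G) * (1 - X * G)⁻¹ = 1 := PowerSeries.mul_inv_cancel _ hcc
  set R1 := (1 - X * G)⁻¹
  have hR1n : NN R1 := NN_of_fix NN_one hG (by linear_combination hR1)
  let T : ℝ⟦X⟧ := Z * (C α + C κ * (X * geo w))
  have hT : NN T := (NN_X_pow N).mul ((NN_C hα0).add ((NN_C hκ0).mul (NN_X.mul (NN_geo hw))))
  have gx := geo_mul x
  have gw := geo_mul w
  have gy := geo_mul y
  have g1 := geo_mul 1
  rw [map_one, one_mul] at g1
  have c1 : (C γ * (C x - C w) : ℝ⟦X⟧) = (1 - C x) * (1 - C w) := by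
    have := congrArg (C (R := ℝ)) hγ1; simpa using this
  have c2 : (C α : ℝ⟦X⟧) = C γ * (C P - C Q) := by rw [hα]; simp
  have c3 : (C κ : ℝ⟦X⟧) = (1 - C x) * (1 - C w) * C Q := by rw [hκ]; simp
  have c4 : (C y : ℝ⟦X⟧) = C x + C w - 1 := by rw [hy]; simp
  have c5 : (C α : ℝ⟦X⟧) = (1 - C x) * C P + C P * C c * (1 - C y) := by
    have := congrArg (C (R := ℝ)) s1; simpa using this
  have c6 : (C α * C w - (1 - C x) * C P * C y - C P * C c * (1 - C y) * C x : ℝ⟦X⟧) = C κ := by
    have := congrArg (C (R := ℝ)) s2; simpa using this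
  have c7 : (C (1 + c) : ℝ⟦X⟧) = 1 + C c := by simp
  have c8 : (C (1 - x) : ℝ⟦X⟧) = 1 - C x := by simp
  have ha : (1 - C x * X) * (1 - C w * X) * G =
      C γ * ((1 - C P * Z) * (1 - C w * X) - (1 - C Q * Z) * (1 - C x * X)) := by
    simp only [G]
    linear_combination C γ * (1 - C P * Z) * (1 - C w * X) * gx
      - C γ * (1 - C Q * Z) * (1 - C x * X) * gw
  have hb : (1 - C w * X) * T = Z * (C α * (1 - C w * X) + C κ * X) := by
    simp only [T]
    linear_combination Z * C κ * X * gw
  have I2 : (1 - C w * X) * ((1 - C x * X) * (1 - X * G) - X * T) = (1 - X) * (1 - C y * X) := by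
    rw [c2, c3] at hb
    rw [c4]
    linear_combination (-X) * ha - X * hb + (X * X * Z * C Q - X * X) * c1
  have I1 : (1 - X) * (geo x - Z * (C P * geo x) + Z * (C P * (C (1 + c) * geo 1 - C c * geo y)))
      * (1 - C y * X) = (1 - X * G) * (1 - C w * X) := by
    have hne : (1 - C x * X : ℝ⟦X⟧) ≠ 0 := by
      intro h; rw [h] at gx; simp at gx
    apply mul_left_cancel₀ hne
    rw [c7]
    linear_combination (1 - X) * (1 - C y * X) * (1 - Z * C P) * gx
      + (1 - C x * X) * Z * C P * (1 + C c) * (1 - C y * X) * g1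
      - (1 - C x * X) * Z * C P * C c * (1 - X) * gy - I2 - X * hb - X * Z * c5 + X * X * Z * c6
  have hmain : 1 - X * (C x + T * R1) = (1 - X) * (1 - C y * X) * geo w * R1 := by
    linear_combination (geo w * R1) * I2
      - ((1 - C x * X) * (1 - X * G) - X * T) * R1 * gw - (1 - C x * X) * hR1
  refine ⟨_, isRenewal_of_series (F := C x + T * R1)
    (R := R1 * (1 + C (1 - x) * (X * geo w))) ?_ ?_ ?_ ?_⟩
  · rw [hU, hmain]
    linear_combination (geo w * R1) * I1 + (1 - X * G) * R1 * gw + hR1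
  · exact (NN_C (by linarith)).add (hT.mul hR1n)
  · exact hR1n.mul (NN_one.add ((NN_C (by linarith)).mul (NN_X.mul (NN_geo hw))))
  · rw [hmain, c8, c4]
    linear_combination (-(1 - X) * R1) * gw

end Pool.Agent.Lib.MP_0f714a_pr
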