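import Pool.Agent.Lib.MP_0f714a_pr.Limit
import Pool.Agent.Lib.MP_0f714a_pr.Series

/-!
The two factors of the truncated exponential.
-/

open MeasureTheory Filter Topology
open scoped NNReal

namespace Pool.Agent.Lib.MP_0f714a_pr

universe u

/-- the perturbation -/
noncomputable def bump (σ c t : ℝ) : ℝ := 1 + c - c * Real.exp (-(σ * max (t - 1) 0))

/-- the factor that is not infinitely divisible -/
noncomputable def qf (a σ c t : ℝ) : ℝ := Real.exp (-(a * min t 1)) * bump σ c t

/-- the infinitely divisible cofactor -/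
noncomputable def rf (b σ c t : ℝ) : ℝ := Real.exp (-(b * min t 1)) / bump σ c t

lemma one_le_bump {σ c : ℝ} (hσ : 0 ≤ σ) (hc : 0 ≤ c) (t : ℝ) : 1 ≤ bump σ c t := by
  have : Real.exp (-(σ * max (t - 1) 0)) ≤ 1 :=
    Real.exp_le_one_iff.2 (neg_nonpos.2 (mul_nonneg hσ (le_max_right _ _)))
  unfold bump
  nlinarith

lemma bump_cont (σ c : ℝ) : Continuous (bump σ c) := by
  unfold bump; fun_prop

lemma qf_cont (a σ c : ℝ) : Continuous (qf a σ c) := by
  unfold qf bump; fun_prop

lemma rf_cont (b : ℝ) {σ c : ℝ} (hσ : 0 ≤ σ) (hc : 0 ≤ c) : Continuous (rf b σ c) := by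
  unfold rf
  refine Continuous.div (by fun_prop) (bump_cont σ c) fun t => ?_
  have := one_le_bump hσ hc t
  linarith

lemma qf_zero (a σ c : ℝ) : qf a σ c 0 = 1 := by simp [qf, bump]

lemma rf_zero (a σ c : ℝ) : rf a σ c 0 = 1 := by simp [rf, bump]

lemma pow_tendsto (k : ℝ) (j : ℕ → ℕ) (t : ℝ)
    (h : Tendsto (fun N : ℕ => (j N : ℝ) / N) atTop (𝓝 t)) :
    Tendsto (fun N : ℕ => (1 - k / N) ^ j N) atTop (𝓝 (Real.exp (-(k * t)))) := by
  have h1 := (Real.tendsto_mul_log_one_add_div_atTop (-k)).comp tendsto_natCast_atTop_atTop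
  have h2 := (Real.continuous_exp.tendsto _).comp (h.mul h1)
  rw [show t * -k = -(k * t) by ring] at h2
  refine h2.congr' ?_
  filter_upwards [eventually_gt_atTop ⌈|k|⌉₊] with N hN
  have hN1 : |k| < N := (Nat.le_ceil _).trans_lt (by exact_mod_cast hN)
  have hN0 : (0 : ℝ) < N := (abs_nonneg k).trans_lt hN1
  have hpos : 0 < 1 - k / N := by
    rw [sub_pos, div_lt_one hN0]; exact (le_abs_self k).trans_lt hN1
  simp only [Function.comp]
  rw [show (j N : ℝ) / N * (N * Real.log (1 + -k / N)) = j N * Real.log (1 - k / N) by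
    rw [neg_div, ← sub_eq_add_neg]; field_simp]
  rw [← Real.log_pow, Real.exp_log (pow_pos hpos _)]

lemma min_div (j N : ℕ) (hN : 0 < N) : ((min j N : ℕ) : ℝ) / N = min ((j : ℝ) / N) 1 := by
  have hN0 : (0 : ℝ) < N := by exact_mod_cast hN
  rw [Nat.cast_min, ← min_div_div_right hN0.le, div_self hN0.ne']

lemma sub_div' (j N : ℕ) (hN : 0 < N) : ((j - N : ℕ) : ℝ) / N = max ((j : ℝ) / N - 1) 0 := by
  have hN0 : (0 : ℝ) < N := by exact_mod_cast hN
  rcases le_total N j with h | h
  · rw [Nat.cast_sub h, sub_div, div_self hN0.ne', max_eq_left]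
    rw [sub_nonneg, le_div_iff₀ hN0, one_mul]; exact_mod_cast h
  · rw [Nat.sub_eq_zero_of_le h, max_eq_right]
    · simp
    · rw [sub_nonpos, div_le_one hN0]; exact_mod_cast h

theorem qf_isPFunction {a s : ℝ} (ha : 0 < a) (hs : a < s) :
    IsPFunction.{u} (fun t : ℝ≥0 => qf a (a + s)
      (a * (a * Real.exp (-a) - s * Real.exp (-s)) / ((a + s) * (s - a) * Real.exp (-a))) t) := by
  let cN : ℕ → ℝ := fun N =>
    a * (a * (1 - a / N) ^ N - s * (1 - s / N) ^ N) / ((a + s) * (s - a) * (1 - a / N) ^ N)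
  have hone : Tendsto (fun N : ℕ => (N : ℝ) / N) atTop (𝓝 1) := by
    refine tendsto_const_nhds.congr' ?_
    filter_upwards [eventually_gt_atTop 0] with N hN
    rw [div_self (by exact_mod_cast hN.ne')]
  have hcN : Tendsto cN atTop
      (𝓝 (a * (a * Real.exp (-a) - s * Real.exp (-s)) / ((a + s) * (s - a) * Real.exp (-a)))) := by
    have h1 := pow_tendsto a (fun N => N) 1 hone
    have h2 := pow_tendsto s (fun N => N) 1 hone
    rw [mul_one] at h1 h2
    refine Tendsto.div (((h1.const_mul a).sub (h2.const_mul s)).const_mul a) (h1.const_mul _) ?_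
    have : 0 < s - a := by linarith
    have : 0 < a + s := by linarith
    positivity
  refine isPFunction_of_approx _ (by simpa using qf_zero _ _ _)
    (fun N n => (1 - a / N) ^ min n N * (1 + cN N - cN N * (1 - (a + s) / N) ^ (n - N))) ?_ ?_
  · filter_upwards [eventually_gt_atTop ⌈s⌉₊] with N hN
    have hN1 : s < N := (Nat.le_ceil _).trans_lt (by exact_mod_cast hN)
    have hN0 : (0 : ℝ) < N := by linarith
    have e : 1 - (a + s) / N = (1 - a / N) + (1 - s / N) - 1 := by ring
    rw [e]
    have hx : 0 < 1 - a / N := by rw [sub_pos, div_lt_one hN0]; linarith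
    refine pert_renewal N ?_ ?_ ?_ ?_
    · rw [sub_nonneg, div_le_one hN0]; exact hN1.le
    · have := div_lt_div_of_pos_right hs hN0; linarith
    · have := div_pos ha hN0; linarith
    · have h1 : (1 - a / N) ^ N ≠ 0 := (pow_pos hx N).ne'
      have h2 : s - a ≠ 0 := by linarith
      have h3 : a + s ≠ 0 := by linarith
      simp only [cN]
      generalize (1 - a / N) ^ N = P at h1 ⊢
      generalize (1 - s / N) ^ N = Q
      field_simp
      ring
  · intro t j hj
    have hm : Tendsto (fun N : ℕ => ((min (j N) N : ℕ) : ℝ) / N) atTop (𝓝 (min (t : ℝ) 1)) := by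
      refine (hj.min tendsto_const_nhds).congr' ?_
      filter_upwards [eventually_gt_atTop 0] with N hN
      rw [min_div _ _ hN]
    have hd : Tendsto (fun N : ℕ => ((j N - N : ℕ) : ℝ) / N) atTop
        (𝓝 (max ((t : ℝ) - 1) 0)) := by
      refine ((hj.sub_const 1).max tendsto_const_nhds).congr' ?_
      filter_upwards [eventually_gt_atTop 0] with N hN
      rw [sub_div' _ _ hN]
    exact (pow_tendsto a _ _ hm).mul
      ((hcN.const_add 1).sub (hcN.mul (pow_tendsto (a + s) _ _ hd)))

theorem rf_isPFunction {b σ c : ℝ} (hσ : 0 ≤ σ) (hc : 0 ≤ c) (hb : c * σ ≤ b) :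
    IsPFunction.{u} (fun t : ℝ≥0 => rf b σ c t) := by
  have hb0 : 0 ≤ b := (mul_nonneg hc hσ).trans hb
  refine isPFunction_of_approx _ (by simpa using rf_zero _ _ _)
    (fun N n => rf b σ c ((n : ℝ) / N)) ?_ ?_
  · filter_upwards [eventually_gt_atTop 0] with N hN
    have hN0 : (0 : ℝ) < N := by exact_mod_cast hN
    set X := Real.exp (-(b / N)) with hX
    set Y := Real.exp (-(σ / N)) with hY
    have hX0 : 0 < X := Real.exp_pos _
    have hY0 : 0 < Y := Real.exp_pos _
    have hX1 : X ≤ 1 := Real.exp_le_one_iff.2 (neg_nonpos.2 (div_nonneg hb0 hN0.le))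
    have hY1 : Y ≤ 1 := Real.exp_le_one_iff.2 (neg_nonpos.2 (div_nonneg hσ hN0.le))
    let g : ℕ → ℝ := fun k => 1 + c - c * Y ^ k
    have hg1 : ∀ k, 1 ≤ g k := fun k => by
      have := pow_le_one₀ (n := k) hY0.le hY1
      simp only [g]; nlinarith
    have hg0 : ∀ k, 0 < g k := fun k => zero_lt_one.trans_le (hg1 k)
    have hgz : g 0 = 1 := by simp [g]
    have hgm : ∀ k, g k ≤ g (k + 1) := fun k => by
      have h1 : Y ^ (k + 1) ≤ Y ^ k := pow_le_pow_of_le_one hY0.le hY1 (Nat.le_succ k)
      simp only [g]; nlinarith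
    have hgc : ∀ k, g k * g (k + 2) ≤ g (k + 1) ^ 2 := fun k => by
      have h1 : g k + g (k + 2) ≤ 2 * g (k + 1) := by
        have h2 : 0 ≤ c * (Y ^ k * (1 - Y) ^ 2) := by positivity
        simp only [g]; ring_nf at h2 ⊢; linarith
      nlinarith [hg0 k, hg0 (k + 1), hg0 (k + 2), sq_nonneg (g k - g (k + 2))]
    have hXg : X * g 1 ≤ 1 := by
      have h1 : 1 - Y ≤ σ / N := by have := Real.add_one_le_exp (-(σ / N)); linarith
      have h2 : g 1 ≤ 1 + b / N := by
        have h3 : c * (σ / N) ≤ b / N := by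
          rw [← mul_div_assoc]; exact div_le_div_of_nonneg_right hb hN0.le
        simp only [g, pow_one]; nlinarith
      have h4 : 1 + b / N ≤ Real.exp (b / N) := by have := Real.add_one_le_exp (b / N); linarith
      have h5 : X * Real.exp (b / N) = 1 := by rw [hX, ← Real.exp_add]; simp
      nlinarith
    have hform : (fun n : ℕ => rf b σ c ((n : ℝ) / N)) = fun n => X ^ min n N / g (n - N) := by
      funext n
      simp only [rf, bump, g]
      rw [← min_div _ _ hN, ← sub_div' _ _ hN, hX, hY, ← Real.exp_nat_mul, ← Real.exp_nat_mul]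
      congr 2
      · ring
      · congr 2; ring
    rw [hform]
    refine kaluza (by simp [hgz]) (fun n => div_pos (pow_pos hX0 _) (hg0 _)) ?_ ?_
    · intro n
      rcases lt_trichotomy (n + 1) N with h | h | h
      · rw [min_eq_left (by omega), min_eq_left (by omega), min_eq_left (by omega),
          Nat.sub_eq_zero_of_le (by omega), Nat.sub_eq_zero_of_le (by omega),
          Nat.sub_eq_zero_of_le (by omega), hgz]
        apply le_of_eq; ring
      · subst h
        rw [min_eq_left (by omega), min_eq_left (by omega), min_eq_right (by omega),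
          Nat.sub_eq_zero_of_le (by omega), Nat.sub_eq_zero_of_le (by omega),
          show n + 2 - (n + 1) = 1 by omega, hgz, div_one, div_one, ← mul_div_assoc,
          le_div_iff₀ (hg0 1)]
        have : 0 ≤ X ^ n * X ^ (n + 1) := by positivity
        calc (X ^ (n + 1)) ^ 2 * g 1 = X ^ n * X ^ (n + 1) * (X * g 1) := by ring
          _ ≤ X ^ n * X ^ (n + 1) := mul_le_of_le_one_right this hXg
      · obtain ⟨k, rfl⟩ : ∃ k, n = N + k := ⟨n - N, by omega⟩
        rw [min_eq_right (by omega), min_eq_right (by omega), min_eq_right (by omega),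
          show N + k + 1 - N = k + 1 by omega, show N + k - N = k by omega,
          show N + k + 2 - N = k + 2 by omega, div_pow, div_mul_div_comm, ← sq]
        exact div_le_div_of_nonneg_left (by positivity) (mul_pos (hg0 _) (hg0 _)) (hgc k)
    · intro n
      refine div_le_div₀ (by positivity) ?_ (hg0 _) ?_
      · exact pow_le_pow_of_le_one hX0.le hX1 (by omega)
      · exact monotone_nat_of_le_succ hgm (by omega)
  · intro t j hj
    exact ((rf_cont b hσ hc).tendsto _).comp hj

lemma mul_mul_div_cancel (A B D : ℝ) (h : 0 < B) : A * B * (D / B) = A * D := by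
  field_simp

lemma exists_s {a : ℝ} (ha : 0 < a) : ∃ s, 2 * a < s ∧ s * Real.exp (-s) < a * Real.exp (-a) := by
  have h1 := Real.tendsto_pow_mul_exp_neg_atTop_nhds_zero 1
  have h2 : ∀ᶠ s : ℝ in atTop, s ^ 1 * Real.exp (-s) < a * Real.exp (-a) :=
    h1.eventually (gt_mem_nhds (by positivity))
  obtain ⟨s, hs1, hs2⟩ := (h2.and (eventually_gt_atTop (2 * a))).exists
  exact ⟨s, hs2, by simpa using hs1⟩

theorem main (lam τ : ℝ≥0) (hlam : 0 < lam) (hτ : 0 < τ) :
    ∃ q, IsFactor.{u} q (truncExp lam τ) ∧ ¬ IsInfDiv.{u} q := by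
  have hlam' : (0 : ℝ) < lam := hlam
  have hτ' : (0 : ℝ) < τ := hτ
  set a : ℝ := lam * τ / 2 with ha_def
  have ha : 0 < a := by positivity
  obtain ⟨s, hs1, hs2⟩ := exists_s ha
  have hs : a < s := by linarith
  set c := a * (a * Real.exp (-a) - s * Real.exp (-s)) / ((a + s) * (s - a) * Real.exp (-a))
    with hc_def
  have h1 : 0 < s - a := by linarith
  have h2 : 0 < a + s := by linarith
  have h3 : 0 < a * Real.exp (-a) - s * Real.exp (-s) := by linarith
  have hc : 0 < c := by positivity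
  have hcb : c * (a + s) ≤ a := by
    rw [hc_def, div_mul_eq_mul_div, div_le_iff₀ (by positivity)]
    have h4 : 0 ≤ s * Real.exp (-s) := by have : 0 < s := by linarith
                                          positivity
    have h5 : a * Real.exp (-a) ≤ (s - a) * Real.exp (-a) :=
      mul_le_mul_of_nonneg_right (by linarith) (Real.exp_pos _).le
    have h6 : a * Real.exp (-a) - s * Real.exp (-s) ≤ (s - a) * Real.exp (-a) := by linarith
    calc a * (a * Real.exp (-a) - s * Real.exp (-s)) * (a + s)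
        = a * (a + s) * (a * Real.exp (-a) - s * Real.exp (-s)) := by ring
      _ ≤ a * (a + s) * ((s - a) * Real.exp (-a)) :=
        mul_le_mul_of_nonneg_left h6 (by positivity)
      _ = _ := by ring
  have hq := (qf_isPFunction.{u} ha hs).scale τ⁻¹
  have hr := (rf_isPFunction.{u} h2.le hc.le hcb).scale τ⁻¹
  rw [← hc_def] at hq
  have hsc : Continuous fun t : ℝ≥0 => ((τ⁻¹ * t : ℝ≥0) : ℝ) := by fun_prop
  refine ⟨_, ⟨⟨hq, ?_⟩, _, ⟨hr, ?_⟩, fun t => ?_⟩, not_isInfDiv τ ?_ ?_⟩
  · have := ((qf_cont a (a + s) c).comp hsc).tendsto 0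
    simpa [qf_zero, Function.comp_def] using this
  · have := ((rf_cont a h2.le hc.le).comp hsc).tendsto 0
    simpa [rf_zero, Function.comp_def] using this
  · have hb := one_le_bump h2.le hc.le ((τ⁻¹ * t : ℝ≥0) : ℝ)
    simp only [qf, rf, truncExp]
    rw [mul_mul_div_cancel _ _ _ (by linarith), ← Real.exp_add]
    congr 1
    have : min (τ : ℝ) t = τ * min ((τ⁻¹ * t : ℝ≥0) : ℝ) 1 := by
      rw [mul_min_of_nonneg _ _ hτ'.le, min_comm]
      push_cast
      congr 1
      · field_simp
      · ring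
    rw [this, ha_def]; ring
  · simp only [qf]
    have := one_le_bump h2.le hc.le ((τ⁻¹ * τ : ℝ≥0) : ℝ)
    positivity
  · have e1 : ((τ⁻¹ * τ : ℝ≥0) : ℝ) = 1 := by push_cast; field_simp
    have e2 : ((τ⁻¹ * (τ + τ) : ℝ≥0) : ℝ) = 2 := by push_cast; field_simp; ring
    simp only [e1, e2, qf, bump]
    rw [min_self, min_eq_right (by norm_num : (1 : ℝ) ≤ 2)]
    refine mul_lt_mul_of_pos_left ?_ (Real.exp_pos _)
    have : Real.exp (-((a + s) * max (2 - 1 : ℝ) 0)) < 1 := by
      rw [Real.exp_lt_one_iff]; norm_num; linarith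
    simp only [sub_self, max_self, mul_zero, neg_zero, Real.exp_zero]
    nlinarith

end Pool.Agent.Lib.MP_0f714a_pr
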