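import Pool.Agent.Lib.MP_0f714a_pr.Defs

/-!
Discrete renewal sequences, the random renewal set, and passage to the continuous-time limit.
-/

open MeasureTheory Filter Topology Finset
open scoped NNReal

namespace Pool.Agent.Lib.MP_0f714a_pr

universe u

/-- `u` is the renewal sequence of the (defective) distribution giving mass `f j` to `j + 1`. -/
structure IsRenewal (u f : ℕ → ℝ) : Prop where
  u0 : u 0 = 1
  f_nonneg : ∀ j, 0 ≤ f j
  sum_le : ∀ n, ∑ j ∈ range n, f j ≤ 1
  recur : ∀ n, u (n + 1) = ∑ j ∈ range (n + 1), f j * u (n - j)

/-- product of `u` over the consecutive gaps of a list started at `s` -/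
def chainProd {α : Type} [Sub α] (u : α → ℝ) : α → List α → ℝ
  | _, [] => 1
  | s, t :: l => u (t - s) * chainProd u t l

/-- the discrete sample space -/
def Disc : Type := Set ℕ

instance : MeasurableSpace Disc := ⊤

/-- the event that all members of the list are renewal times -/
def allIn (l : List ℕ) : Set Disc := {S | ∀ t ∈ l, (show Set ℕ from S) t}

/-- adding a renewal time -/
def addPt (s : ℕ) (S : Disc) : Disc := (insert s (show Set ℕ from S) : Set ℕ)

lemma meas_disc (A : Set Disc) : MeasurableSet A := trivial

lemma addPt_meas (s : ℕ) : Measurable (addPt s) := fun _ _ => trivial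

lemma mem_addPt (s t : ℕ) (S : Disc) :
    (show Set ℕ from addPt s S) t ↔ t = s ∨ (show Set ℕ from S) t := Iff.rfl

theorem exists_renewal_measure {u f : ℕ → ℝ} (h : IsRenewal u f) (m : ℕ) :
    ∀ s : ℕ, ∃ ν : Measure Disc, IsProbabilityMeasure ν ∧
      (∀ t < s, ν.real (allIn [t]) = 0) ∧
      ∀ l : List ℕ, l.Pairwise (· ≤ ·) → (∀ t ∈ l, s ≤ t ∧ t ≤ s + m) →
        ν.real (allIn l) = chainProd u s l := by
  induction m using Nat.strong_induction_on with
  | _ m ih =>
  intro s
  have ih' : ∀ j : Fin m, ∃ ν : Measure Disc, IsProbabilityMeasure ν ∧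
      (∀ t < s + j + 1, ν.real (allIn [t]) = 0) ∧
      ∀ l : List ℕ, l.Pairwise (· ≤ ·) → (∀ t ∈ l, s + j + 1 ≤ t ∧ t ≤ s + m) →
        ν.real (allIn l) = chainProd u (s + j + 1) l := by
    intro j
    obtain ⟨ν, h1, h2, h3⟩ := ih (m - j - 1) (by have := j.2; omega) (s + j + 1)
    refine ⟨ν, h1, h2, fun l hl hl' => h3 l hl fun t ht => ?_⟩
    have := hl' t ht
    have := j.2
    omega
  choose ν hν1 hν2 hν3 using ih'
  set c : ℝ := 1 - ∑ j ∈ range m, f j with hc
  have hc0 : 0 ≤ c := by have := h.sum_le m; linarith
  let pt : Disc := (({s} : Set ℕ) : Set ℕ)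
  let μ : Measure Disc := ENNReal.ofReal c • Measure.dirac pt +
    ∑ j : Fin m, ENNReal.ofReal (f j) • (ν j).map (addPt s)
  have hμ : ∀ A : Set Disc, μ A = ENNReal.ofReal (c * A.indicator 1 pt +
      ∑ j : Fin m, f j * (ν j).real (addPt s ⁻¹' A)) := by
    intro A
    have e1 : 0 ≤ c * A.indicator 1 pt :=
      mul_nonneg hc0 (Set.indicator_nonneg (fun _ _ => zero_le_one) _)
    have e2 : ∀ j : Fin m, 0 ≤ f j * (ν j).real (addPt s ⁻¹' A) :=
      fun j => mul_nonneg (h.f_nonneg j) measureReal_nonneg
    rw [ENNReal.ofReal_add e1 (Finset.sum_nonneg fun j _ => e2 j),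
      ENNReal.ofReal_sum_of_nonneg (fun j _ => e2 j)]
    simp only [μ, Measure.add_apply, Measure.smul_apply, Measure.finsetSum_apply, smul_eq_mul,
      Measure.dirac_apply' _ (meas_disc A), Measure.map_apply (addPt_meas s) (meas_disc A)]
    congr 1
    · rw [ENNReal.ofReal_mul hc0]
      by_cases hA : pt ∈ A <;> simp [hA]
    · refine Finset.sum_congr rfl fun j _ => ?_
      have := hν1 j
      rw [ENNReal.ofReal_mul (h.f_nonneg j), ofReal_measureReal]
  have hμr : ∀ A : Set Disc, μ.real A = c * A.indicator 1 pt +
      ∑ j : Fin m, f j * (ν j).real (addPt s ⁻¹' A) := by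
    intro A
    have e1 : 0 ≤ c * A.indicator 1 pt :=
      mul_nonneg hc0 (Set.indicator_nonneg (fun _ _ => zero_le_one) _)
    have e2 : ∀ j : Fin m, 0 ≤ f j * (ν j).real (addPt s ⁻¹' A) :=
      fun j => mul_nonneg (h.f_nonneg j) measureReal_nonneg
    rw [Measure.real, hμ, ENNReal.toReal_ofReal (add_nonneg e1 (Finset.sum_nonneg fun j _ => e2 j))]
  have hprob : IsProbabilityMeasure μ := by
    constructor
    rw [hμ]
    have : ∀ j : Fin m, (ν j).real (addPt s ⁻¹' Set.univ) = 1 := by
      intro j; have := hν1 j; simp
    simp only [this, mul_one, Set.indicator_univ, Pi.one_apply]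
    rw [Fin.sum_univ_eq_sum_range (fun j => f j) m, hc]
    simp
  refine ⟨μ, hprob, ?_, ?_⟩
  · intro t ht
    rw [hμr]
    have e1 : pt ∉ allIn [t] := by
      intro hh
      have : t = s := hh t (by simp)
      omega
    have e2 : addPt s ⁻¹' allIn [t] = allIn [t] := by
      ext S
      simp only [allIn, Set.mem_preimage, Set.mem_ofPred_eq, List.mem_singleton, forall_eq,
        mem_addPt]
      constructor
      · rintro (h1 | h1)
        · omega
        · exact h1
      · exact Or.inr
    rw [e2]
    simp only [Set.indicator_of_notMem e1, mul_zero, zero_add]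
    refine Finset.sum_eq_zero fun j _ => ?_
    rw [hν2 j t (by omega), mul_zero]
  · intro l
    induction l with
    | nil =>
      intro _ _
      have : allIn [] = Set.univ := by ext S; simp [allIn]
      rw [this]; simp [chainProd]
    | cons t l ihl =>
      intro hl hl'
      have hlp := (List.pairwise_cons.1 hl)
      rcases (hl' t (by simp)).1.eq_or_lt with hts | hts
      · subst hts
        have := ihl hlp.2 (fun x hx => hl' x (by simp [hx]))
        simp only [chainProd, tsub_self, h.u0, one_mul]
        rw [← this, hμr, hμr]
        have e2 : addPt s ⁻¹' allIn (s :: l) = addPt s ⁻¹' allIn l := by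
          ext S
          simp [allIn, mem_addPt]
        have e1 : (allIn (s :: l)).indicator (1 : Disc → ℝ) pt = (allIn l).indicator 1 pt := by
          have : pt ∈ allIn (s :: l) ↔ pt ∈ allIn l := by
            simp only [allIn, Set.mem_ofPred_eq, List.mem_cons, forall_eq_or_imp]
            exact ⟨fun h => h.2, fun h => ⟨rfl, h⟩⟩
          by_cases hp : pt ∈ allIn l
          · rw [Set.indicator_of_mem hp, Set.indicator_of_mem (this.2 hp)]
          · rw [Set.indicator_of_notMem hp, Set.indicator_of_notMem (fun h => hp (this.1 h))]
        rw [e1, e2]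
      · rw [hμr]
        have e1 : pt ∉ allIn (t :: l) := by
          intro hh
          have : t = s := hh t (by simp)
          omega
        have e2 : addPt s ⁻¹' allIn (t :: l) = allIn (t :: l) := by
          ext S
          simp only [allIn, Set.mem_preimage, Set.mem_ofPred_eq, mem_addPt]
          refine forall_congr' fun x => forall_congr' fun hx => ?_
          have : t ≤ x := by
            rcases List.mem_cons.1 hx with rfl | hx
            · exact le_rfl
            · exact hlp.1 x hx
          constructor
          · rintro (h1 | h1)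
            · omega
            · exact h1
          · exact Or.inr
        rw [e2]
        simp only [Set.indicator_of_notMem e1, mul_zero, zero_add]
        obtain ⟨d, rfl⟩ : ∃ d, t = s + d + 1 := ⟨t - s - 1, by omega⟩
        have hd : d + 1 ≤ m := by have := (hl' (s + d + 1) (by simp)).2; omega
        have e3 : ∀ j : Fin m, f j * (ν j).real (allIn ((s + d + 1) :: l)) =
            (fun j : ℕ => if j < d + 1 then f j * u (d - j) * chainProd u (s + d + 1) l else 0) j := by
          intro j
          have := hν1 j
          by_cases hj : (j : ℕ) < d + 1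
          · simp only [hj, if_true]
            rw [hν3 j _ hl, chainProd, mul_assoc]
            · congr 3; omega
            · intro x hx
              refine ⟨?_, (hl' x hx).2⟩
              rcases List.mem_cons.1 hx with rfl | hx
              · omega
              · have := hlp.1 x hx; omega
          · simp only [hj, if_false]
            have h0 := hν2 j (s + d + 1) (by omega)
            have hsub : allIn ((s + d + 1) :: l) ⊆ allIn [s + d + 1] := by
              intro S hS x hx
              exact hS x (by simp at hx; simp [hx])
            have := measureReal_mono (μ := ν j) hsub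
            have h1 : (ν j).real (allIn ((s + d + 1) :: l)) = 0 :=
              le_antisymm (h0 ▸ this) measureReal_nonneg
            rw [h1, mul_zero]
        simp only [e3]
        rw [Fin.sum_univ_eq_sum_range
          (fun j : ℕ => if j < d + 1 then f j * u (d - j) * chainProd u (s + d + 1) l else 0) m]
        rw [← Finset.sum_filter]
        have e4 : (range m).filter (fun j => j < d + 1) = range (d + 1) := by
          ext j; simp; omega
        rw [e4, chainProd, show s + d + 1 - s = d + 1 by omega, h.recur, Finset.sum_mul]

end Pool.Agent.Lib.MP_0f714a_pr
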